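import Pool.Agent.Helper42.INC.Clifford
import Pool.Agent.Helper24.MA.Val.Lattice
import Pool.Agent.Helper24.MA.Val.RedFacts
import Pool.Agent.Helper24.MA.Val.Exists

/-!
# The sum of the squares of the multiplicities is 1 modulo p (module MA-26)

`M` finite, `E` a `p`-group acting on `M` by `act`, `κ : C → M` injective with image the fixed points of `E`, `p` not dividing `|C|`, `φ` irreducible
character of `C`, `mult θ = [θ ∘ κ, φ]`. CLAIM `sum_sq_mod`: the sum of `mult θ ^ 2` over the `E`-invariant irreducible characters `θ` of `M` is `1` modulo `p`. PROOF. Let `Φ = indHom κ φ` (Helper42.INC.Clifford). `B Φ θ = B φ (θ ∘ κ) = mult θ`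
(`B_indHom`, `B_symm`), so by `expand`, `Φ = ∑ mult θ • θ` over `Irr M` and `∑ mult θ ^ 2 = B Φ Φ = B φ (Φ ∘ κ)`. Writing out (`indHom_eq`, `B_eq`), this is `|C|⁻² ∑ (y : M), s y` with
`s y = ∑ (c, c' : C), (if κ c' = y⁻¹ * κ c * y then φ c' * φ c⁻¹ else 0)` (up to the order of the arguments). `s (act x y) = s y` for `x` in `E`, since
`act x` fixes the `κ c`. For `y = κ d` we get `s y = ∑ c, φ c * φ c⁻¹ = |C|` (`B_irr_self`, `φ` a class function). The values of `φ` lie in `O`
(`exists_val`, `exists_red`, `red_trace`), so all the `s y` do. Group the sum over `y` not in the image of `κ` by `E`-orbits: each orbit has cardinality divisible by `p`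
(it is a power of `p`, not `1` since `y` is not a fixed point), so this part is `p` times an element of `O`. Hence `|C|² ∑ mult θ ^ 2 - |C|²` is an integer which vanishes in the residue field of
`O`, so it is divisible by `p` (`charP_res`), and `p` does not divide `|C|`. Finally `E` acts on `Irr M` (`θ ↦ θ ∘ act x⁻¹`), `mult` is constant on the orbits, the orbits of the
not invariant characters have cardinality divisible by `p` (`E` is a `p`-group), so the sum over `Irr M` is congruent to the sum over the invariant ones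
(`MulAction` card congruences, or `IsPGroup.card_modEq_card_fixedPoints` for the sets of `θ` with given `mult`, or orbit sums).
`exists_mult`: follows, the sum is not `0` modulo `p`.
-/

open Pool.Agent.Helper42.INC

namespace Pool.Agent.Helper24.MA

open Classical in
/-- orbit sums modulo `p` -/
private lemma cong_orb_sum {p : ℕ} [Fact p.Prime] {E X R : Type} [Group E] [Finite E]
    (hE : IsPGroup p E) [MulAction E X] [Fintype X] [CommRing R] (f : X → R)
    (hf : ∀ (e : E) (x : X), f (e • x) = f x) :
    ∃ r : R, ∑ x, f x = ∑ x ∈ Finset.univ.filter (fun x => ∀ e : E, e • x = x), f x +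
      (p : R) * r := by
  have key : ∀ v : R, ∃ k : ℤ, ((Finset.univ.filter (fun x => f x = v)).card : ℤ) =
      ((Finset.univ.filter (fun x => (∀ e : E, e • x = x))).filter (fun x => f x = v)).card +
        p * k := by
    intro v
    let S : SubMulAction E X :=
      { carrier := {x | f x = v}
        smul_mem' := fun e x hx => by
          change f (e • x) = v
          rw [hf]; exact hx }
    have h1 := hE.card_modEq_card_fixedPoints S
    have h2 : Nat.card S = (Finset.univ.filter (fun x => f x = v)).card := by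
      rw [Nat.card_eq_fintype_card]
      exact Fintype.card_subtype _
    have h3 : Nat.card (MulAction.fixedPoints E S) =
        ((Finset.univ.filter (fun x => (∀ e : E, e • x = x))).filter (fun x => f x = v)).card := by
      rw [Nat.card_eq_fintype_card, ← Fintype.card_coe]
      apply Fintype.card_congr
      exact
        { toFun := fun y => ⟨y.1.1, by
            rw [Finset.mem_filter, Finset.mem_filter]
            refine ⟨⟨Finset.mem_univ _, fun e => ?_⟩, y.1.2⟩
            have := y.2 e
            exact congrArg Subtype.val this⟩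
          invFun := fun y => ⟨⟨y.1, (Finset.mem_filter.1 y.2).2⟩, fun e => by
            apply Subtype.ext
            exact (Finset.mem_filter.1 (Finset.mem_filter.1 y.2).1).2 e⟩
          left_inv := fun y => rfl
          right_inv := fun y => rfl }
    rw [h2, h3] at h1
    have h4 := (Nat.modEq_iff_dvd.1 h1.symm)
    obtain ⟨k, hk⟩ := h4
    exact ⟨k, by linarith⟩
  choose k hk using key
  refine ⟨∑ v ∈ Finset.univ.image f, (k v : R) * v, ?_⟩
  have e1 : ∑ x, f x = ∑ v ∈ Finset.univ.image f, ∑ x ∈ Finset.univ.filter (fun x => f x = v),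
      f x := (Finset.sum_fiberwise_of_maps_to (fun x _ =>
        Finset.mem_image_of_mem f (Finset.mem_univ x)) f).symm
  have e2 : ∑ x ∈ Finset.univ.filter (fun x => ∀ e : E, e • x = x), f x =
      ∑ v ∈ Finset.univ.image f, ∑ x ∈ (Finset.univ.filter
        (fun x => ∀ e : E, e • x = x)).filter (fun x => f x = v), f x :=
    (Finset.sum_fiberwise_of_maps_to (fun x _ =>
        Finset.mem_image_of_mem f (Finset.mem_univ x)) f).symm
  rw [e1, e2, Finset.mul_sum, ← Finset.sum_add_distrib]
  apply Finset.sum_congr rfl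
  intro v _
  have e3 : ∑ x ∈ Finset.univ.filter (fun x => f x = v), f x =
      ((Finset.univ.filter (fun x => f x = v)).card : R) * v := by
    rw [Finset.sum_congr rfl (fun x hx => (Finset.mem_filter.1 hx).2), Finset.sum_const,
      nsmul_eq_mul]
  have e4 : ∑ x ∈ (Finset.univ.filter
        (fun x => ∀ e : E, e • x = x)).filter (fun x => f x = v), f x =
      (((Finset.univ.filter
        (fun x => ∀ e : E, e • x = x)).filter (fun x => f x = v)).card : R) * v := by
    rw [Finset.sum_congr rfl (fun x hx => (Finset.mem_filter.1 hx).2), Finset.sum_const,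
      nsmul_eq_mul]
  rw [e3, e4]
  have h5 := congrArg (Int.cast : ℤ → R) (hk v)
  push_cast at h5
  rw [h5]
  ring

theorem sum_sq_mod (p : ℕ) [Fact p.Prime] {M C E : Type} [Group M] [Finite M] [Group C]
    [Finite C] [Group E] [Finite E] (hE : IsPGroup p E) (act : E →* MulAut M) (κ : C →* M)
    (hκi : Function.Injective κ) (hκ : ∀ x c, act x (κ c) = κ c)
    (hκr : ∀ m, (∀ x, act x m = m) → ∃ c, κ c = m) (hC : ¬ p ∣ Nat.card C) {φ : C → ℂ}
    (hφ : φ ∈ Irr C) (mult : Irr M → ℕ)
    (hm : ∀ θ : Irr M, B (fun c => θ.1 (κ c)) φ = mult θ)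
    [Fintype {θ : Irr M // ∀ x m, θ.1 (act x m) = θ.1 m}] :
    ∑ θ : {θ : Irr M // ∀ x m, θ.1 (act x m) = θ.1 m}, mult θ.1 ^ 2 ≡ 1 [MOD p] := by
  classical
  have := Fintype.ofFinite M
  have := Fintype.ofFinite C
  have := Fintype.ofFinite (Irr M)
  have hφc : IsClass φ := Irr.isClass hφ
  -- step 1: the norm of the induced character
  set Φ : M → ℂ := indHom κ φ with hΦ
  have hΦc : IsClass Φ := indHom_isClass κ φ
  have hΦB : ∀ θ : Irr M, B Φ θ.1 = mult θ := by
    intro θ
    rw [hΦ, B_indHom κ φ (Irr.isClass θ.2), B_symm]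
    exact hm θ
  have hnorm : B Φ Φ = ∑ θ : Irr M, (mult θ : ℂ) ^ 2 := by
    have hexp := expand Φ hΦc
    nth_rewrite 1 [hexp]
    rw [B_sum_left]
    apply Finset.sum_congr rfl
    intro θ _
    rw [B_smul_left, B_symm θ.1 Φ, hΦB]
    ring
  -- step 2: the double sum
  set s : M → ℂ := fun y => ∑ c : C, ∑ c' : C,
    if κ c' = y⁻¹ * κ c⁻¹ * y then φ c * φ c' else 0 with hs
  have hCne : (Nat.card C : ℂ) ≠ 0 := by exact_mod_cast Nat.card_pos.ne'
  have hdouble : (Nat.card C : ℂ) ^ 2 * B Φ Φ = ∑ y : M, s y := by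
    have h1 : B Φ Φ = B φ (fun c => Φ (κ c)) := by
      nth_rewrite 1 [hΦ]
      rw [B_indHom κ φ hΦc]
    rw [h1, B_eq]
    have h2 : ∀ c : C, φ c * Φ (κ c⁻¹) = (Nat.card C : ℂ)⁻¹ * ∑ y : M, ∑ c' : C,
        if κ c' = y⁻¹ * κ c⁻¹ * y then φ c * φ c' else 0 := by
      intro c
      rw [hΦ, indHom_eq, ← mul_assoc, mul_comm (φ c), mul_assoc, Finset.mul_sum]
      congr 1
      apply Finset.sum_congr rfl
      intro y _
      rw [Finset.mul_sum]
      apply Finset.sum_congr rfl
      intro c' _
      rw [mul_ite, mul_zero]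
    rw [Finset.sum_congr rfl (fun c _ => h2 c), ← Finset.mul_sum, Finset.sum_comm]
    field_simp
    rfl
  -- step 3: values of `s` in `O`
  obtain ⟨O, hO⟩ := exists_val p
  have hφO : ∀ c, φ c ∈ O := by
    obtain ⟨V, _, _, _, ρ, hρ, rfl⟩ := hφ
    intro c
    obtain ⟨R⟩ := exists_red O ρ
    obtain ⟨h, _⟩ := red_trace R c
    exact h
  have hsO : ∀ y, s y ∈ O := by
    intro y
    apply sum_mem
    intro c _
    apply sum_mem
    intro c' _
    split_ifs
    · exact mul_mem (hφO c) (hφO c')
    · exact zero_mem _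
  let actM : MulAction E M := MulAction.compHom M act
  have hsmul : ∀ (x : E) (y : M), x • y = act x y := fun x y => rfl
  have hs_inv : ∀ (x : E) (y : M), s (x • y) = s y := by
    intro x y
    simp only [hs]
    apply Finset.sum_congr rfl
    intro c _
    apply Finset.sum_congr rfl
    intro c' _
    have hiff : (κ c' = (x • y)⁻¹ * κ c⁻¹ * (x • y)) ↔ (κ c' = y⁻¹ * κ c⁻¹ * y) := by
      have e1 : (x • y)⁻¹ * κ c⁻¹ * (x • y) = act x (y⁻¹ * κ c⁻¹ * y) := by
        rw [hsmul, map_mul, map_mul, hκ, map_inv (act x)]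
      rw [e1]
      nth_rewrite 1 [← hκ x c']
      exact (act x).injective.eq_iff
    by_cases hc : κ c' = y⁻¹ * κ c⁻¹ * y
    · rw [if_pos hc, if_pos (hiff.2 hc)]
    · rw [if_neg hc, if_neg (fun h => hc (hiff.1 h))]
  have hs_val : ∀ d : C, s (κ d) = Nat.card C := by
    intro d
    have h1 : ∀ c : C, (∑ c' : C, if κ c' = (κ d)⁻¹ * κ c⁻¹ * κ d then φ c * φ c' else 0) =
        φ c * φ c⁻¹ := by
      intro c
      rw [Finset.sum_eq_single (d⁻¹ * c⁻¹ * d)]
      · rw [if_pos (by rw [map_mul, map_mul, map_inv]), ]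
        have := hφc d⁻¹ c⁻¹
        rw [inv_inv] at this
        rw [this]
      · intro c' _ hne
        rw [if_neg]
        intro he
        apply hne
        apply hκi
        rw [he, map_mul, map_mul, map_inv κ d]
      · intro h; exact absurd (Finset.mem_univ _) h
    simp only [hs]
    rw [Finset.sum_congr rfl (fun c _ => h1 c)]
    have h2 := B_irr_self hφ
    rw [B_eq] at h2
    field_simp at h2
    exact h2
  have hfix : (Finset.univ.filter (fun y : M => ∀ e : E, e • y = y)) =
      Finset.univ.image κ := by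
    ext y
    simp only [Finset.mem_filter, Finset.mem_univ, true_and, Finset.mem_image]
    constructor
    · intro h
      exact hκr y (fun x => h x)
    · rintro ⟨c, rfl⟩ x
      exact hκ x c
  obtain ⟨r, hr⟩ := cong_orb_sum (p := p) hE (fun y : M => (⟨s y, hsO y⟩ : O))
    (fun e y => Subtype.ext (hs_inv e y))
  have hr' : ∑ y : M, s y = (Nat.card C : ℂ) ^ 2 + p * r := by
    have h1 := congrArg (fun z : O => (z : ℂ)) hr
    push_cast at h1
    rw [h1]
    congr 1
    rw [hfix, Finset.sum_image (fun a _ b _ h => hκi h),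
      Finset.sum_congr rfl (fun d _ => hs_val d), Finset.sum_const, nsmul_eq_mul,
      Finset.card_univ, ← Nat.card_eq_fintype_card]
    ring
  -- step 4: the total sum is 1 modulo p
  set N : ℕ := ∑ θ : Irr M, mult θ ^ 2 with hN
  have hNO : ((Nat.card C : ℕ) : O) ^ 2 * (N : O) = ((Nat.card C : ℕ) : O) ^ 2 + p * r := by
    apply Subtype.ext
    push_cast
    rw [← hr', ← hdouble, hnorm, hN]
    push_cast
    rfl
  have hchar := charP_res O hO
  have hN1 : N ≡ 1 [MOD p] := by
    have h1 := congrArg (IsLocalRing.residue O) hNO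
    have hp0 : IsLocalRing.residue O (p : O) = 0 := by
      rw [IsLocalRing.residue_eq_zero_iff]; exact hO
    rw [map_mul, map_add, map_mul, hp0, zero_mul, add_zero, map_pow, map_natCast,
      map_natCast] at h1
    have hc0 : ((Nat.card C : ℕ) : IsLocalRing.ResidueField O) ≠ 0 := by
      intro h
      exact hC ((CharP.cast_eq_zero_iff _ p _).1 h)
    have h2 : (N : IsLocalRing.ResidueField O) = ((1 : ℕ) : IsLocalRing.ResidueField O) := by
      rw [Nat.cast_one]
      have h3 : ((Nat.card C : ℕ) : IsLocalRing.ResidueField O) ^ 2 ≠ 0 := pow_ne_zero _ hc0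
      exact mul_left_cancel₀ h3 (by rw [h1, mul_one])
    exact (CharP.natCast_eq_natCast _ p).1 h2
  -- step 5: the action on `Irr M`
  have hirr : ∀ (x : E) (θ : Irr M), (fun m => θ.1 (act x m)) ∈ Irr M :=
    fun x θ => irr_comp (act x) θ.2
  let actI : MulAction E (Irr M) :=
    { smul := fun x θ => ⟨fun m => θ.1 (act x⁻¹ m), hirr x⁻¹ θ⟩
      one_smul := fun θ => by
        apply Subtype.ext
        funext m
        change θ.1 (act (1 : E)⁻¹ m) = θ.1 m
        rw [inv_one, map_one]; rfl
      mul_smul := fun x y θ => by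
        apply Subtype.ext
        funext m
        change θ.1 (act (x * y)⁻¹ m) = θ.1 (act y⁻¹ (act x⁻¹ m))
        rw [mul_inv_rev, map_mul]; rfl }
  have hact : ∀ (x : E) (θ : Irr M) (m : M), (x • θ).1 m = θ.1 (act x⁻¹ m) := fun _ _ _ => rfl
  have hmult : ∀ (x : E) (θ : Irr M), mult (x • θ) = mult θ := by
    intro x θ
    have h1 := hm (x • θ)
    have h2 : (fun c => (x • θ).1 (κ c)) = fun c => θ.1 (κ c) := by
      funext c
      rw [hact, hκ]
    rw [h2, hm θ] at h1
    exact_mod_cast h1.symm
  obtain ⟨r', hr2⟩ := cong_orb_sum (p := p) hE (fun θ : Irr M => ((mult θ : ℤ)) ^ 2)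
    (fun e θ => by simp only [hmult])
  have hfilter : ∑ θ ∈ Finset.univ.filter (fun θ : Irr M => ∀ e : E, e • θ = θ),
      ((mult θ : ℤ)) ^ 2 =
      ∑ θ : {θ : Irr M // ∀ x m, θ.1 (act x m) = θ.1 m}, (mult θ.1 : ℤ) ^ 2 := by
    apply Finset.sum_subtype
    intro θ
    simp only [Finset.mem_filter, Finset.mem_univ, true_and]
    constructor
    · intro h x m
      have h1 : (x⁻¹ • θ).1 m = θ.1 m := congrArg (fun η : Irr M => η.1 m) (h x⁻¹)
      rw [hact, inv_inv] at h1
      exact h1
    · intro h e
      apply Subtype.ext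
      funext m
      rw [hact]
      exact h e⁻¹ m
  rw [hfilter] at hr2
  have h3 : ((N : ℕ) : ℤ) = ((∑ θ : {θ : Irr M // ∀ x m, θ.1 (act x m) = θ.1 m},
      mult θ.1 ^ 2 : ℕ) : ℤ) + p * r' := by
    rw [hN]
    push_cast
    exact hr2
  have h4 : (∑ θ : {θ : Irr M // ∀ x m, θ.1 (act x m) = θ.1 m}, mult θ.1 ^ 2) ≡ N [MOD p] := by
    rw [Nat.modEq_iff_dvd]
    exact ⟨r', by rw [h3]; ring⟩
  exact h4.trans hN1

end Pool.Agent.Helper24.MA
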