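import Mathlib

/-!
# The counting argument (module MA-23)

`∑ i (∑ j d_j r_ij) ^ 2 ≤ ∑ g_i ^ 2 ≤ ∑ d_j ^ 2`. Expanding the square, `(∑ j d_j r_ij) ^ 2 ≥ ∑ j d_j ^ 2 r_ij ^ 2` with equality iff at most one `r_ij` (fixed `i`) is nonzero.
So `∑ j d_j ^ 2 (∑ i r_ij ^ 2) ≤ ∑ j d_j ^ 2`, and `∑ i r_ij ^ 2 ≥ 1` for every `j` by `h3`; hence there is equality everywhere: `∑ i r_ij ^ 2 = 1` for all `j`, and for each `i` at most one `r_ij ≠ 0`.
-/

namespace Pool.Agent.Helper24.MA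

private lemma sq_le {J : Type} [Fintype J] (x : J → ℕ) : ∑ j, x j ^ 2 ≤ (∑ j, x j) ^ 2 := by
  rw [pow_two, Finset.sum_mul]
  apply Finset.sum_le_sum
  intro j _
  rw [pow_two]
  exact Nat.mul_le_mul_left _ (Finset.single_le_sum (fun k _ => Nat.zero_le (x k))
    (Finset.mem_univ j))

private lemma sq_lt {J : Type} [Fintype J] (x : J → ℕ) {j j' : J} (hne : j ≠ j') (hj : 0 < x j)
    (hj' : 0 < x j') : ∑ j, x j ^ 2 < (∑ j, x j) ^ 2 := by
  classical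
  rw [pow_two (∑ j, x j), Finset.sum_mul]
  have hle : ∀ k, x k ≤ ∑ l, x l := fun k =>
    Finset.single_le_sum (fun k _ => Nat.zero_le (x k)) (Finset.mem_univ k)
  apply Finset.sum_lt_sum
  · intro k _
    rw [pow_two]
    exact Nat.mul_le_mul_left _ (hle k)
  · refine ⟨j, Finset.mem_univ j, ?_⟩
    rw [pow_two]
    apply Nat.mul_lt_mul_of_pos_left _ hj
    have h1 : ∑ l ∈ ({j, j'} : Finset J), x l ≤ ∑ l, x l :=
      Finset.sum_le_sum_of_subset (Finset.subset_univ _)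
    rw [Finset.sum_pair hne] at h1
    omega

theorem arith {I J : Type} [Fintype I] [Fintype J] (r : I → J → ℕ) (d : J → ℕ) (g : I → ℕ)
    (hd : ∀ j, 0 < d j) (h1 : ∀ i, ∑ j, d j * r i j ≤ g i)
    (h2 : ∑ i, g i * g i ≤ ∑ j, d j ^ 2) (h3 : ∀ j, ∃ i, 0 < r i j) :
    (∀ j, ∃! i, 0 < r i j) ∧ (∀ i j, r i j ≤ 1) ∧
      ∀ i j j', 0 < r i j → 0 < r i j' → j = j' := by
  classical
  -- upper bound
  have hU : ∑ i, (∑ j, d j * r i j) ^ 2 ≤ ∑ j, d j ^ 2 := by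
    refine le_trans (Finset.sum_le_sum ?_) h2
    intro i _
    rw [← pow_two (g i)]
    exact Nat.pow_le_pow_left (h1 i) 2
  -- the diagonal sum
  have hD : ∑ i, ∑ j, (d j * r i j) ^ 2 = ∑ j, d j ^ 2 * ∑ i, r i j ^ 2 := by
    rw [Finset.sum_comm]
    apply Finset.sum_congr rfl
    intro j _
    rw [Finset.mul_sum]
    apply Finset.sum_congr rfl
    intro i _
    rw [mul_pow]
  have hone : ∀ j, 1 ≤ ∑ i, r i j ^ 2 := by
    intro j
    obtain ⟨i, hi⟩ := h3 j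
    calc 1 ≤ r i j ^ 2 := Nat.one_le_pow _ _ hi
      _ ≤ ∑ i, r i j ^ 2 :=
        Finset.single_le_sum (f := fun i => r i j ^ 2) (fun k _ => Nat.zero_le _)
          (Finset.mem_univ i)
  have hL : ∑ j, d j ^ 2 ≤ ∑ j, d j ^ 2 * ∑ i, r i j ^ 2 := by
    apply Finset.sum_le_sum
    intro j _
    exact Nat.le_mul_of_pos_right _ (hone j)
  have hM : ∑ i, ∑ j, (d j * r i j) ^ 2 ≤ ∑ i, (∑ j, d j * r i j) ^ 2 :=
    Finset.sum_le_sum (fun i _ => sq_le _)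
  -- each column has one
  have hcol : ∀ j, ∑ i, r i j ^ 2 = 1 := by
    intro j
    by_contra hne
    have h4 : 1 < ∑ i, r i j ^ 2 := lt_of_le_of_ne (hone j) (Ne.symm hne)
    have h5 : ∑ j, d j ^ 2 < ∑ j, d j ^ 2 * ∑ i, r i j ^ 2 := by
      apply Finset.sum_lt_sum
      · intro k _
        exact Nat.le_mul_of_pos_right _ (hone k)
      · refine ⟨j, Finset.mem_univ j, ?_⟩
        have h6 : 0 < d j ^ 2 := pow_pos (hd j) 2
        nlinarith
    omega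
  have hle1 : ∀ i j, r i j ≤ 1 := by
    intro i j
    have h4 : r i j ^ 2 ≤ ∑ i, r i j ^ 2 :=
      Finset.single_le_sum (f := fun i => r i j ^ 2) (fun k _ => Nat.zero_le _)
        (Finset.mem_univ i)
    rw [hcol j] at h4
    by_contra hcon
    push Not at hcon
    have : 2 ^ 2 ≤ r i j ^ 2 := Nat.pow_le_pow_left hcon 2
    omega
  refine ⟨?_, hle1, ?_⟩
  · intro j
    obtain ⟨i, hi⟩ := h3 j
    refine ⟨i, hi, ?_⟩
    intro k hk
    by_contra hne
    have h4 : ∑ l ∈ ({k, i} : Finset I), r l j ^ 2 ≤ ∑ l, r l j ^ 2 :=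
      Finset.sum_le_sum_of_subset (Finset.subset_univ _)
    rw [Finset.sum_pair hne, hcol j] at h4
    have h5 : 1 ≤ r k j ^ 2 := Nat.one_le_pow _ _ hk
    have h6 : 1 ≤ r i j ^ 2 := Nat.one_le_pow _ _ hi
    omega
  · intro i j j' hj hj'
    by_contra hne
    have h4 : ∑ i, ∑ j, (d j * r i j) ^ 2 < ∑ i, (∑ j, d j * r i j) ^ 2 := by
      apply Finset.sum_lt_sum
      · intro k _
        exact sq_le _
      · exact ⟨i, Finset.mem_univ i, sq_lt _ hne (Nat.mul_pos (hd j) hj)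
          (Nat.mul_pos (hd j') hj')⟩
    omega

end Pool.Agent.Helper24.MA
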