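import Pool.Agent.Helper24.MA.Four.SumC
import Pool.Agent.Helper24.MA.Four.SumM
import Pool.Agent.Helper24.MA.Glau.Arith
import Pool.Agent.Helper24.MA.Rk.Fps

/-!
# The correspondence in characteristic p (module MA-25)

Apply `arith` with `r i j = gr p (homE ..)`, `d j = finrank (W j)` (positive since it is nonzero in `k`), `g i = gr p (X i)`: `h1` is `sum_homE_le` for `(σ i).comp κ` (`X i x` commutes
with `σ i (κ c)` since `act x (κ c) = κ c`); `∑ g i ^ 2 ≤ ∑ gr p (linHom (X i) (X i)) ≤ |M^E| = |C| = ∑ d j ^ 2` by `gr_sq_le`, `sum_linHom_le`, `κ` a bijection of `C` onto the fixed points, and `hd`;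
`h3` from `gr_pos`.
-/

namespace Pool.Agent.Helper24.MA

theorem comm_kappa {k M C E V : Type} [Field k] [Group M] [Group C] [Group E] [AddCommGroup V]
    [Module k V] {σ : Representation k M V} {act : E →* MulAut M} {X : Representation k E V}
    (hX : ∀ x m, X x ∘ₗ σ m = σ (act x m) ∘ₗ X x) (κ : C →* M)
    (hκ : ∀ x c, act x (κ c) = κ c) : ∀ x c, X x ∘ₗ (σ.comp κ) c = (σ.comp κ) c ∘ₗ X x := by
  intro x c
  change X x ∘ₗ σ (κ c) = σ (κ c) ∘ₗ X x
  rw [hX, hκ]

theorem kside (p : ℕ) [Fact p.Prime] {k M C E I J : Type} [Field k] [CharP k p] [Group M]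
    [Fintype M] [Group C] [Fintype C] [Group E] [Fintype E] (hE : ElAb p E)
    (hM : (Fintype.card M : k) ≠ 0) (hC : (Fintype.card C : k) ≠ 0) [Fintype I] [Fintype J]
    {V : I → Type} [∀ i, AddCommGroup (V i)] [∀ i, Module k (V i)]
    [∀ i, FiniteDimensional k (V i)] (σ : ∀ i, Representation k M (V i)) (hσ : Fou σ)
    (act : E →* MulAut M) (X : ∀ i, Representation k E (V i))
    (hX : ∀ i x m, X i x ∘ₗ σ i m = σ i (act x m) ∘ₗ X i x) (κ : C →* M)
    (hκi : Function.Injective κ) (hκ : ∀ x c, act x (κ c) = κ c)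
    (hκr : ∀ m, (∀ x, act x m = m) → ∃ c, κ c = m)
    {W : J → Type} [∀ j, AddCommGroup (W j)] [∀ j, Module k (W j)]
    [∀ j, FiniteDimensional k (W j)] (τ : ∀ j, Representation k C (W j)) (hτ : Fou τ)
    (hd : ∑ j, Module.finrank k (W j) ^ 2 = Fintype.card C)
    (h3 : ∀ j, ∃ i, ¬ p ∣ Module.finrank k (HomC ((σ i).comp κ) (τ j))) :
    (∀ j, ∃! i, 0 < gr p (homE ((σ i).comp κ) (τ j) (X i) (comm_kappa (hX i) κ hκ))) ∧
    (∀ i j, gr p (homE ((σ i).comp κ) (τ j) (X i) (comm_kappa (hX i) κ hκ)) ≤ 1) ∧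
    ∀ i j j', 0 < gr p (homE ((σ i).comp κ) (τ j) (X i) (comm_kappa (hX i) κ hκ)) →
      0 < gr p (homE ((σ i).comp κ) (τ j') (X i) (comm_kappa (hX i) κ hκ)) → j = j' := by
  refine arith (fun i j => gr p (homE ((σ i).comp κ) (τ j) (X i) (comm_kappa (hX i) κ hκ)))
    (fun j => Module.finrank k (W j)) (fun i => gr p (X i)) ?_ ?_ ?_ ?_
  · intro j
    refine Nat.pos_of_ne_zero fun h => hτ.dim j ?_
    rw [h, Nat.cast_zero]
  · intro i
    exact sum_homE_le p hE hC τ hτ ((σ i).comp κ) (X i) (comm_kappa (hX i) κ hκ)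
  · have e1 : ∑ i, gr p (X i) * gr p (X i) ≤ ∑ i, gr p (Representation.linHom (X i) (X i)) :=
      Finset.sum_le_sum fun i _ => by
        exact gr_sq_le p hE (X i)
    have e2 := sum_linHom_le p hE hM σ hσ act X hX
    have e3 : Nat.card {m : M // ∀ x, act x m = m} = Fintype.card C := by
      rw [← Nat.card_eq_fintype_card]
      symm
      refine Nat.card_congr (Equiv.ofBijective
        (fun c : C => (⟨κ c, fun x => hκ x c⟩ : {m : M // ∀ x, act x m = m})) ⟨?_, ?_⟩)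
      · intro c c' h
        exact hκi (congrArg Subtype.val h)
      · rintro ⟨m, hm⟩
        obtain ⟨c, hc⟩ := hκr m hm
        exact ⟨c, Subtype.ext hc⟩
    rw [hd, ← e3]
    exact e1.trans e2
  · intro j
    obtain ⟨i, hi⟩ := h3 j
    exact ⟨i, gr_pos p hE _ hi⟩

end Pool.Agent.Helper24.MA
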